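import Pool.Agent.H15.KI.TargetsA
import Pool.Agent.H84.KEW.Sky
import Pool.Agent.H84.KB.S

/-!
# Project KEW-I, row AUG: the augmentation of the Gersten complex extends (helper12)
-/

open CategoryTheory TopologicalSpace Opposite Limits
open Pool.Agent.H84.KEW

universe u v w

namespace Pool.Agent.H12.KI

noncomputable section

section general

variable {𝒞 : Type v} [Category.{w} 𝒞]

/-- A lift through an isomorphism. -/
theorem iso_lift {A B C D : 𝒞} (c : A ⟶ B) (g : B ⟶ D) (t : A ⟶ C) (i : C ≅ D)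
    (h : c ≫ g = t ≫ i.hom) : c ≫ g ≫ i.inv = t := by
  rw [← Category.assoc, h, Category.assoc, Iso.hom_inv_id, Category.comp_id]

/-- A lift through a finite direct sum. -/
theorem sum_lift [Preadditive 𝒞] {ι : Type u} [Fintype ι] {F G E : 𝒞} {S : ι → 𝒞}
    (c : F ⟶ G) (t : F ⟶ E) (pr : ∀ i, E ⟶ S i) (inc : ∀ i, S i ⟶ E)
    (h1 : ∀ i, inc i ≫ pr i = 𝟙 _) (h2 : ∀ i j, i ≠ j → inc i ≫ pr j = 0)
    (g : ∀ i, G ⟶ S i) (hg : ∀ i, c ≫ g i = t ≫ pr i) (j : ι) :
    (c ≫ ∑ i, g i ≫ inc i) ≫ pr j = t ≫ pr j := by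
  rw [Category.assoc, Preadditive.sum_comp, Finset.sum_eq_single j]
  · rw [Category.assoc, h1, Category.comp_id, hg]
  · intro i _ hij
    rw [Category.assoc, h2 i j hij, comp_zero]
  · intro h
    exact absurd (Finset.mem_univ j) h

end general

section sky

variable {X : TopCat.{u}}

/-- Sheaves of abelian groups. -/
abbrev SHF (X : TopCat.{u}) : Type (u + 1) := Sheaf (Opens.grothendieckTopology X) AddCommGrpCat.{u}

/-- A morphism of sheaves of groups which is locally injective and locally surjective at a point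
is an isomorphism on the stalk. -/
theorem isIso_stalk (x : X) {F G : SHF X} (c : F ⟶ G)
    (hi : ∀ (U : Opens X), x ∈ U → ∀ s : F.obj.obj (op U), c.hom.app (op U) s = 0 →
      ∃ (V : Opens X) (hV : V ≤ U), x ∈ V ∧ F.obj.map (homOfLE hV).op s = 0)
    (hs : LocSurjAt c x) :
    IsIso ((TopCat.Presheaf.stalkFunctor AddCommGrpCat.{u} x).map c.hom) := by
  have hb : Function.Bijective ((TopCat.Presheaf.stalkFunctor AddCommGrpCat.{u} x).map c.hom) := by
    constructor
    · rw [injective_iff_map_eq_zero]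
      intro a ha
      obtain ⟨U, hx, s, rfl⟩ := TopCat.Presheaf.exists_germ_eq F.obj a
      have h1 : TopCat.Presheaf.germ G.obj U x hx (c.hom.app (op U) s) = 0 :=
        (TopCat.Presheaf.stalkFunctor_map_germ_apply U x hx c.hom s).symm.trans ha
      have h2 : TopCat.Presheaf.germ G.obj U x hx (c.hom.app (op U) s) = TopCat.Presheaf.germ G.obj U x hx 0 := by
        rw [h1, map_zero]
      obtain ⟨W, hxW, iU, iU', h3⟩ := TopCat.Presheaf.germ_eq G.obj x hx hx _ _ h2
      have h4 : c.hom.app (op W) (F.obj.map iU.op s) = 0 := by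
        have h5 := ConcreteCategory.congr_hom (c.hom.naturality iU.op) s
        refine Eq.trans h5 (h3.trans ?_)
        exact map_zero _
      obtain ⟨V, hV, hxV, h6⟩ := hi W hxW _ h4
      have h7 : TopCat.Presheaf.germ F.obj U x hx s = TopCat.Presheaf.germ F.obj V x hxV (F.obj.map (homOfLE hV).op (F.obj.map iU.op s)) := by
        rw [TopCat.Presheaf.germ_res_apply, TopCat.Presheaf.germ_res_apply]
      exact h7.trans ((congrArg (TopCat.Presheaf.germ F.obj V x hxV) h6).trans (map_zero _))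
    · intro b
      obtain ⟨U, hx, t, rfl⟩ := TopCat.Presheaf.exists_germ_eq G.obj b
      obtain ⟨V, hV, hxV, f, hf⟩ := hs U hx t
      refine ⟨TopCat.Presheaf.germ F.obj V x hxV f, ?_⟩
      rw [TopCat.Presheaf.stalkFunctor_map_germ_apply]
      exact (congrArg (TopCat.Presheaf.germ G.obj V x hxV) hf).trans
        (TopCat.Presheaf.germ_res_apply G.obj (homOfLE hV) x hxV t)
  exact (ConcreteCategory.isIso_iff_bijective _).mpr hb

/-- Morphisms to skyscraper sheaves extend along such morphisms. -/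
theorem factor_sky (x : X) [∀ U : Opens X, Decidable (x ∈ U)] (B : AddCommGrpCat.{u})
    {F G : SHF X} (c : F ⟶ G)
    (hi : ∀ (U : Opens X), x ∈ U → ∀ s : F.obj.obj (op U), c.hom.app (op U) s = 0 →
      ∃ (V : Opens X) (hV : V ≤ U), x ∈ V ∧ F.obj.map (homOfLE hV).op s = 0)
    (hs : LocSurjAt c x) (τ : F ⟶ skyscraperSheaf x B) :
    ∃ g : G ⟶ skyscraperSheaf x B, c ≫ g = τ := by
  have h := isIso_stalk x c hi hs
  let adj := stalkSkyscraperSheafAdjunction (C := AddCommGrpCat.{u}) x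
  let L := TopCat.Sheaf.forget AddCommGrpCat.{u} X ⋙ TopCat.Presheaf.stalkFunctor AddCommGrpCat.{u} x
  have hL : IsIso (L.map c) := h
  refine ⟨adj.homEquiv G B (inv (L.map c) ≫ (adj.homEquiv F B).symm τ), ?_⟩
  refine (adj.homEquiv_naturality_left c _).symm.trans ?_
  have h1 : L.map c ≫ inv (L.map c) ≫ (adj.homEquiv F B).symm τ = (adj.homEquiv F B).symm τ :=
    IsIso.hom_inv_id_assoc (L.map c) _
  exact (congrArg (adj.homEquiv F B) h1).trans ((adj.homEquiv F B).apply_symm_apply τ)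

/-- Morphisms to sheaves of finite families extend along morphisms which are locally bijective
at the points. -/
theorem lift_fam [NoetherianSpace X] {ι : Type u} [Finite ι] (p : ι → X)
    (B : ι → AddCommGrpCat.{u}) {F G : SHF X} (c : F ⟶ G)
    (hi : ∀ i, ∀ (U : Opens X), p i ∈ U → ∀ s : F.obj.obj (op U), c.hom.app (op U) s = 0 →
      ∃ (V : Opens X) (hV : V ≤ U), p i ∈ V ∧ F.obj.map (homOfLE hV).op s = 0)
    (hs : ∀ i, LocSurjAt c (p i)) (t : F ⟶ (E p (fun i => B i)).sheaf) :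
    ∃ g : G ⟶ (E p (fun i => B i)).sheaf, c ≫ g = t := by
  classical
  have := Fintype.ofFinite ι
  have hex : ∀ i, ∃ g : G ⟶ skyscraperSheaf (p i) (B i), c ≫ g = t ≫ prE p B i :=
    fun i => factor_sky (p i) (B i) c (hi i) (hs i) _
  choose g hg using hex
  exact ⟨∑ i, g i ≫ incE p B i, hom_ext_prE p fun j => sum_lift (E := (E p (fun i => B i)).sheaf)
    (S := fun i => skyscraperSheaf (p i) (B i)) c t (prE p B) (incE p B)
    (incE_prE_self p) (fun i j hij => incE_prE_ne p hij) g hg j⟩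

end sky

open AlgebraicGeometry Pool.Agent.H15.KS Pool.Agent.H15.KI

/-- Row AUG. -/
theorem pf_AUG : T_AUG.{u} := by
  intro e T hT X _ hinf
  have hfin : Finite (Pool.Agent.H17.KW.Pts X (e + 1) (e + 1)) :=
    Set.finite_univ_iff.mp (Pool.Agent.H17.KW.finite_pts X (e + 1))
  obtain ⟨g, hg⟩ := lift_fam (X := X.toTopCat)
    (fun v : Pool.Agent.H17.KW.Pts X (e + 1) (e + 1) => (v.1 : X))
    (fun v => AddCommGrpCat.of (Pool.Agent.H62.MK.MilnorK (Pool.Agent.H17.KW.kap X v.1) (e + 1)))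
    (T.c X) (fun v => hT.inj X v.1 (hinf v)) (fun v => hT.surj X v.1 (hinf v))
    (top X (e + 1) ≫ (Pool.Agent.H84.KB.isoC X (e + 1) (e + 1)).hom)
  exact Pool.Agent.H15.KS.the_spec (P := fun g => T.c X ≫ g = top X (e + 1))
    ⟨_, iso_lift (T.c X) g (top X (e + 1)) (Pool.Agent.H84.KB.isoC X (e + 1) (e + 1)) hg⟩

end

end Pool.Agent.H12.KI
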