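import Pool.Agent.H15.KI.TargetsC
import Pool.Agent.H12.KB.Hcyc

/-!
# Project KEW-I, row CYC: the class of a cycle (helper12)
-/

open CategoryTheory CategoryTheory.Limits Abelian AlgebraicGeometry TopologicalSpace Opposite
open Pool.Agent.H15.KS (ap onSecs secs onH C dC Cyc famC)
open Pool.Agent.H15.KI Pool.Agent.H12.KB
open Pool.Agent.H84.KB (isoC dC_isoC isZero_C)
open Pool.Agent.H17.KW (D ZSh secH)

universe u

namespace Pool.Agent.H12.KI

noncomputable section

section general

variable {X : Scheme.{u}} [IsNoetherian X] {e : ℕ} {T : Version.{u} (e + 1)}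

/-- The Gersten complex of a version is a resolution in the form of the old layer. -/
theorem isRes_aug (h : GerstenT T X) :
    Pool.Agent.H17.KW.IsRes (C X (e + 1)) (dC X (e + 1)) e (aug T X) :=
  (isRes_iff fun s hs => isZero_C X (e + 1) s hs).mp h

/-- The homomorphism of the cycles is the one of the resolution. -/
theorem cycT_eq (h : Pool.Agent.H17.KW.IsRes (C X (e + 1)) (dC X (e + 1)) e (aug T X)) :
    cycT T X = cc h := the_cyc h

theorem conn_cycT (h : Pool.Agent.H17.KW.IsRes (C X (e + 1)) (dC X (e + 1)) e (aug T X))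
    (z : Cyc X e) : Pool.Agent.H15.KS.IsConn (C X (e + 1)) (dC X (e + 1)) e (aug T X)
      (Pool.Agent.H15.KS.ZZ X) (ap (Pool.Agent.H15.KS.toH (C X (e + 1) 0)) z)
        (ap (cycT T X) z) := by
  have h4 := (conn_iff h z (ap (cycT T X) z)).mpr (congrArg (fun g => ap g z) (cycT_eq h))
  exact h4

theorem map_cycT (h' : Pool.Agent.H17.KW.IsRes (C X (e + 1)) (dC X (e + 1)) e (aug T X))
    {K : Pool.Agent.H15.KS.AbSh X} {t : K ⟶ D X (e + 1) (e + 1)}
    (h : Pool.Agent.H17.KW.IsRes (D X (e + 1)) (Pool.Agent.H17.KW.dD X (e + 1)) e t)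
    (a : T.S X ≅ K) (ha : aug T X ≫ (isoC X (e + 1) (e + 1)).hom = a.hom ≫ t) (z : Cyc X e) :
    ap (onH a.hom (e + 1)) (ap (cycT T X) z) =
      Pool.Agent.H17.KW.IsRes.cyc h (ZSh X) (secH X (D X (e + 1) 0)
        (ap (onSecs (isoC X (e + 1) 0).hom ⊤) z)) := by
  rw [cycT_eq h']
  exact (cc_natural h' h (fun s => (isoC X (e + 1) s).hom) (fun s => dC_isoC X (e + 1) s) a.hom
    ha z).trans (cc_KW h _)

end general

/-- Row CYC. -/
theorem pf_CYC : T_CYC.{u} := by
  intro X _ e T hG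
  refine ⟨fun z => conn_cycT (isRes_aug hG) z, ?_⟩
  intro K t h a ha z
  refine (map_cycT (isRes_aug hG) h a ha z).trans ?_
  exact congrArg (fun t => Pool.Agent.H17.KW.IsRes.cyc h (ZSh X) (secH X (D X (e + 1) 0) t))
    (famC_eq z)

end

end Pool.Agent.H12.KI
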