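import Pool.Agent.H15.KI.TargetsB
import Pool.Agent.H12.KSJ.Final

/-!
# Project KEW-I, row KV: the cohomology of the kernel vanishes (helper12)
-/

open CategoryTheory TopologicalSpace Opposite AlgebraicGeometry Limits
open Pool.Agent.H62.MK Pool.Agent.H84.KEW Pool.Agent.H19.KN Pool.Agent.H19.KEW
open Pool.Agent.H12.KSJ Pool.Agent.H15.KI
open Pool.Agent.H17.KW (kap Pts IsProjectiveOver)
open Pool.Agent.H12.KG (Sp GenSp kA stA rho projStr)
open Pool.Agent.H15.KEW (adjoin_one quasiSober_top coheight_le_of_smooth)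

universe u

namespace Pool.Agent.H12.KI

noncomputable section

variable {A : Type u} [CommRing A] {X : Scheme.{u}}

/-- The conditions (SM) hold at all levels. -/
lemma sms_allg [IsDomain A] [IsDiscreteValuationRing A] (hT : T_SMTg.{u})
    [IsNoetherian X] (f : X ⟶ Spec (CommRingCat.of A)) [Smooth f] (π : A) (hπ : Irreducible π)
    (e q n : ℕ) (hq : 1 ≤ q) (hn : 1 ≤ n) (μ : Md f π e q n)
    (hdim : ∀ x : X, Order.coheight x ≤ e + 2)
    (R : ∀ s, X.toTopCat → AddSubgroup (Π₀ v : HPts f π (e + 1) s, AH f π (e + 1) s v))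
    (hR : ∀ y, R (e + 1) y = nuGMd μ y) (hrec : ∀ s, s ≤ e → Rec f π (e + 1) R s) :
    ∀ m, m ≤ e → SMs f π (e + 1) R m := by
  have key : ∀ j, j ≤ e → SMs f π (e + 1) R (e - j) := by
    intro j
    induction j with
    | zero =>
      intro _
      exact hT A X f π hπ e q n hq hn μ hdim (codim_one f) R hR
    | succ j ih =>
      intro hj
      have h1 := ih (by omega)
      obtain ⟨m, hm⟩ : ∃ m, e - (j + 1) = m := ⟨_, rfl⟩
      have hm1 : e - j = m + 1 := by omega
      rw [hm1] at h1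
      rw [hm]
      refine done_SMS A X f π e m (by omega) hdim ?_ R (hrec (m + 1) (by omega)) h1
      intro v
      have hv := v.1.2
      obtain ⟨k, hk⟩ : ∃ k, e = m + 1 + k := ⟨e - (m + 1), by omega⟩
      have hv2 : Order.coheight v.1.1 = (k + 1 : ℕ) := by
        have h3 : Order.coheight v.1.1 + ((m + 1 : ℕ) : ℕ∞) =
            ((k + 1 : ℕ) : ℕ∞) + ((m + 1 : ℕ) : ℕ∞) := by
          rw [hv, hk]
          norm_cast
          omega
        exact WithTop.add_right_cancel (ENat.natCast_ne_top (m + 1)) h3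
      obtain ⟨w, hw, hw1, hw2⟩ := dvr_chain f v.1.1 k hv2
      have hw3 : Order.coheight w + ((m + 2 : ℕ) : ℕ∞) = ((e + 1 : ℕ) : ℕ∞) := by
        rw [hw1, hk]
        norm_cast
        omega
      exact ⟨⟨⟨w, hw3⟩, fun hsp => v.2 (Pool.Agent.H15.KEW.Sp.mono hw hsp)⟩, hw, hw2⟩
  intro m hm
  have h1 := key (e - m) (by omega)
  have h2 : e - (e - m) = m := by omega
  rwa [h2] at h1

/-- The cohomology of the kernel vanishes. -/
theorem kernel_vanishg [IsDomain A] [IsDiscreteValuationRing A] (hL : T_LOCDDg.{u})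
    (hE : T_HEXg.{u}) (hN : T_NUXg.{u}) (hT : T_SMTg.{u})
    [IsNoetherian X] (f : X ⟶ Spec (CommRingCat.of A)) [Smooth f] (π : A)
    (hπ : Irreducible π) (e q n : ℕ) (hq : 1 ≤ q) (hn : 1 ≤ n) (μ : Md f π e q n)
    (hdim : ∀ x : X, Order.coheight x ≤ e + 2) (hW : WAp f π)
    (hU : ∀ z : X, ¬ Sp f π z → (∀ x : X, z ⤳ x → x ≠ z → IsClosed ({x} : Set X)) →
      ∃! x : X, z ⤳ x ∧ IsClosed ({x} : Set X)) :
    Subsingleton (Sheaf.H (kernel μ.ρ) (e + 2)) := by
  have hqs := quasiSober_top X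
  have hT0 : T0Space X.toTopCat := inferInstanceAs (T0Space X)
  obtain ⟨R, hRtop, hRrec⟩ := pf_EXR X.toTopCat (fun s => HPts f π (e + 1) s)
    (fun s => pH f π (e + 1) s) (fun s => AH f π (e + 1) s) (fun s => dH f π (e + 1) s)
    (Ysp f π) (dl (X := X) (e + 1)) e (fun y => nuGMd μ y)
  have hR : ∀ y, R (e + 1) y = nuGMd μ y := fun y => congrFun hRtop y
  have hrec : ∀ s, s ≤ e → Rec f π (e + 1) R s := fun s hs y _ _ => hRrec s hs y
  have hsm := sms_allg hT f π hπ e q n hq hn μ hdim R hR hrec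
  obtain ⟨hd1, hd2, -, hd4⟩ := pf_DLX A X f π e hdim
  obtain ⟨hl1, -, hl3⟩ := hL A X f π e μ.K μ.t μ.res
  have hgen : ∀ v : Pts X (e + 1) (e + 1), ¬ Sp f π v.1 := by
    intro v
    refine not_sp_of_coheight f hπ.ne_zero v.1 ?_
    have hv : Order.coheight v.1 + ((e + 1 : ℕ) : ℕ∞) = 0 + ((e + 1 : ℕ) : ℕ∞) := by
      rw [v.2, zero_add]
    exact WithTop.add_right_cancel (ENat.natCast_ne_top (e + 1)) hv
  obtain ⟨hn1, hn2, hn3⟩ := hN A X f π hπ e q n hn hgen μ
  have hSD : SData (X := X.toTopCat) (fun s => pH f π (e + 1) s) (fun s => AH f π (e + 1) s)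
      (fun s => dH f π (e + 1) s) (Ysp f π) (dl (X := X) (e + 1)) e R :=
    { loc := hl1
      dd := hl3
      strict := hd1
      closed := hd4
      hor := fun s i => i.2
      dim := fun s i => hd2 s i.1
      step := fun s hs y hy hs' => hrec s hs y hy hs'
      iso := by
        intro s hs y hy hys g
        cases s with
        | zero => exact Pool.Agent.H35.KSJ.pf_ISZ A X f π e hdim hU R y hy hys g
        | succ m =>
          exact Pool.Agent.H84.KSJ.pf_ISO Pool.Agent.H74.KSJ.pf_ISY A X f π e m (by omega) hdim hW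
            R (hsm m (by omega)) y hy hys g
      ex := fun s hs x hx => (hE A X f π e μ.K μ.t μ.res x hx).1 s hs
      ex0 := fun x hx => (hE A X f π e μ.K μ.t μ.res x hx).2 }
  exact pf_NV X.toTopCat (fun s => HPts f π (e + 1) s) (fun s => pH f π (e + 1) s)
    (fun s => AH f π (e + 1) s) (fun s => dH f π (e + 1) s) (Ysp f π) (dl (X := X) (e + 1)) e R hSD
    (NMd μ) (nuMd μ) hn2 hn3 (fun y _ _ => hR y)

attribute [local instance] MvPolynomial.gradedAlgebra in
/-- Row KV. -/
theorem pf_KV : T_LOCDDg.{u} → T_HEXg.{u} → T_NUXg.{u} → T_SMTg.{u} → T_KVg.{u} := by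
  intro hL hE hN hT A _ _ _ _ _ X _ f π e q n _ hπ hf hq hn μ
  have hdim : ∀ x : X, Order.coheight x ≤ e + 2 := by
    intro x
    have h1 := coheight_le_of_smooth f (e + 1) x
    refine h1.trans (le_of_eq ?_)
    push_cast
    rw [add_assoc, one_add_one_eq_two]
  have hsm : Smooth f := SmoothOfRelativeDimension.smooth (n := e + 1) f
  obtain ⟨N, i, hi, hif⟩ := hf
  have hif' : f = i ≫ projStr (MvPolynomial.homogeneousSubmodule (Fin (N + 1)) A) := hif.symm
  subst hif'
  refine kernel_vanishg hL hE hN hT _ π hπ e q n hq hn μ hdim ?_ ?_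
  · intro n' hn' w hw H hH
    exact Pool.Agent.H12.KG.done_WA1X A _ (MvPolynomial.homogeneousSubmodule (Fin (N + 1)) A)
      (MvPolynomial.homogeneousSubmodule_fg (Fin (N + 1)) A 1) (adjoin_one A N) X i hi π hπ n' hn' w hw
      H hH
  · exact (Pool.Agent.H12.KG.done_UCX A _ (MvPolynomial.homogeneousSubmodule (Fin (N + 1)) A)
      (MvPolynomial.homogeneousSubmodule_fg (Fin (N + 1)) A 1) (adjoin_one A N) X i hi π hπ).2.2

end

end Pool.Agent.H12.KI
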