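import Pool.Agent.H12.KI.SURa

/-!
# Project KEW-I, row SUR: surjectivity for a general resolution (helper12)
-/

open CategoryTheory TopologicalSpace Opposite AlgebraicGeometry Limits Abelian
open Pool.Agent.H84.KEW Pool.Agent.H12.KSJ Pool.Agent.H15.KI
open Pool.Agent.H17.KW (Pts D dD IsRes Cyc toSec secH ZSh IsProjectiveOver)
open Pool.Agent.H15.KEW (coheight_le_of_smooth)

universe u

namespace Pool.Agent.H12.KI

noncomputable section

/-- Row SUR. -/
theorem pf_SUR : T_KVg.{u} → T_COK.{u} → T_SURg.{u} := by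
  intro hK hC A _ _ _ _ _ X _ f π e q n _ hπ hf hq hn μ y
  have hV := hK A X f π e q n hπ hf hq hn μ
  have hdim : ∀ x : X, Order.coheight x ≤ e + 2 := by
    intro x
    have h1 := coheight_le_of_smooth f (e + 1) x
    refine h1.trans (le_of_eq ?_)
    push_cast
    rw [add_assoc, one_add_one_eq_two]
  obtain ⟨I, ρ₁, j, h1, h2, hfac⟩ := exists_fac μ.ρ
  obtain ⟨x, hx⟩ := sur_md μ hV I ρ₁ j h1 h2 hfac
    (hC A X f π e q n hdim μ I ρ₁ j h1 h2 hfac).2 y
  obtain ⟨c, hc⟩ := exists_cyc e x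
  exact ⟨c, (congrArg (fun t => Sheaf.H.map μ.ρ (e + 1) (μ.res.cyc (ZSh X) t)) hc).trans hx⟩

end

end Pool.Agent.H12.KI
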