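import Pool.Agent.H15.KI.TargetsB
import Pool.Agent.H12.KSJ.Asm2
import Pool.Agent.H84.KEW.Sur2

/-!
# Project KEW-I, row SUR: surjectivity, abstract part (helper12)
-/

open CategoryTheory TopologicalSpace Opposite AlgebraicGeometry Limits Abelian
open Pool.Agent.H84.KEW Pool.Agent.H12.KSJ Pool.Agent.H15.KI
open Pool.Agent.H17.KW (Pts D dD IsRes Cyc toSec secH ZSh AbSh)
open Pool.Agent.H15.KEW (coheight_le_of_smooth)

universe u v w

namespace Pool.Agent.H12.KI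

noncomputable section

/-- The factorization of a morphism through its image. -/
theorem exists_fac {C : Type v} [Category.{w} C] [Abelian C] {K F : C} (ρ : K ⟶ F) :
    ∃ (I : C) (ρ₁ : K ⟶ I) (j : I ⟶ F), Epi ρ₁ ∧ Mono j ∧ ρ₁ ≫ j = ρ :=
  ⟨Abelian.image ρ, Abelian.factorThruImage ρ, Abelian.image.ι ρ, inferInstance, inferInstance,
    Abelian.image.fac ρ⟩

theorem ker_ses {C : Type v} [Category.{w} C] [Abelian C] {K F I : C} (ρ : K ⟶ F) (ρ₁ : K ⟶ I)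
    (j : I ⟶ F) [Epi ρ₁] [Mono j] (h : ρ₁ ≫ j = ρ) :
    ∃ w : kernel.ι ρ ≫ ρ₁ = 0, (ShortComplex.mk (kernel.ι ρ) ρ₁ w).ShortExact := by
  have hw : kernel.ι ρ ≫ ρ₁ = 0 := by
    refine (cancel_mono j).1 ?_
    rw [Category.assoc, h, kernel.condition, zero_comp]
  refine ⟨hw, ShortComplex.ShortExact.mk' ?_ (by dsimp; infer_instance) (by dsimp; infer_instance)⟩
  refine ShortComplex.exact_of_f_is_kernel _ ?_
  exact isKernelOfComp j ρ (kernelIsKernel ρ) hw h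

/-- Surjectivity of the composition of the class map and the map of an epimorphism with kernel
`N`. -/
theorem sur_ker {X : TopCat.{u}} {D : ℕ → Shf X} {δ : ∀ s, D (s + 1) ⟶ D s} {e : ℕ}
    {K F N : Shf X} {k : K ⟶ D (e + 1)} (h : IsRes D δ e k)
    (hac : ∀ s i, Subsingleton (Sheaf.H (D s) (i + 1))) (ν : N ⟶ K) (ρ : K ⟶ F) (w : ν ≫ ρ = 0)
    (hses : (ShortComplex.mk ν ρ w).ShortExact)
    (hN : Subsingleton (Sheaf.H N (e + 2))) (y : Sheaf.H F (e + 1)) :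
    ∃ x : Sheaf.H (Pool.Agent.H17.KW.Z D δ 0) 0, Sheaf.H.map ρ (e + 1) (h.cyc _ x) = y := by
  obtain ⟨y', hy'⟩ := Ext.covariant_sequence_exact₃ _ hses y rfl (Subsingleton.elim _ _)
  obtain ⟨x, hx⟩ := cyc_surjective h hac y'
  refine ⟨x, ?_⟩
  rw [hx]
  exact hy'

/-- Surjectivity from vanishing of the cohomology of the kernel and from the surjectivity of the
map of the image. -/
theorem sur_abs {X : TopCat.{u}} {D : ℕ → Shf X} {δ : ∀ s, D (s + 1) ⟶ D s} {e : ℕ}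
    {K F I : Shf X} {k : K ⟶ D (e + 1)} (h : IsRes D δ e k)
    (hac : ∀ s i, Subsingleton (Sheaf.H (D s) (i + 1))) (ρ : K ⟶ F) (ρ₁ : K ⟶ I)
    (j : I ⟶ F) [Epi ρ₁] [Mono j] (hfac : ρ₁ ≫ j = ρ)
    (hN : Subsingleton (Sheaf.H (kernel ρ) (e + 2)))
    (hj : Function.Surjective (Sheaf.H.map j (e + 1))) (y : Sheaf.H F (e + 1)) :
    ∃ x : Sheaf.H (Pool.Agent.H17.KW.Z D δ 0) 0, Sheaf.H.map ρ (e + 1) (h.cyc _ x) = y := by
  obtain ⟨y', hy'⟩ := hj y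
  obtain ⟨hw, hses⟩ := ker_ses ρ ρ₁ j hfac
  obtain ⟨x, hx⟩ := sur_ker h hac _ _ hw hses hN y'
  refine ⟨x, ?_⟩
  have h3 := Sheaf.H.map_comp_apply ρ₁ j (h.cyc _ x)
  rw [hfac, hx, hy'] at h3
  exact h3

variable {A : Type u} [CommRing A] [IsLocalRing A] {X : Scheme.{u}} [IsNoetherian X]
  {f : X ⟶ Spec (CommRingCat.of A)} {π : A} {e q n : ℕ}

lemma sur_md (μ : Md f π e q n) (hV : Subsingleton (Sheaf.H (kernel μ.ρ) (e + 2)))
    (I : AbSh X) (ρ₁ : μ.K ⟶ I) (j : I ⟶ μ.F) (_ : Epi ρ₁) (_ : Mono j) (hfac : ρ₁ ≫ j = μ.ρ)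
    (hj : Function.Surjective (Sheaf.H.map j (e + 1))) (y : Sheaf.H μ.F (e + 1)) :
    ∃ x, Sheaf.H.map μ.ρ (e + 1) (μ.res.cyc (ZSh X) x) = y :=
  sur_abs μ.res (fun s i => acyclic_D X (e + 1) s i) μ.ρ ρ₁ j hfac hV hj y

end

end Pool.Agent.H12.KI
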